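import Pool.Agent.helper67.RG.Spec

/-!
# Project rg (MP_2e0e07_nt), row LIE
-/

set_option autoImplicit false

namespace Pool.Agent.RG.LIE

open Matrix Pool.Agent.GO Pool.Agent.AR Pool.Agent.RG

theorem sum_val {F Γ ι ν : Type*} [Field F] [Group Γ] [Fintype ι] [DecidableEq ι] [Fintype ν]
    (R : Γ →* Matrix ι ι F) (c : ν → F) (a : ν → alg R) (h : Γ) :
    (∑ k, c k • a k).1 h = ∑ k, c k * (a k).1 h := by
  have h1 : (∑ k, c k • a k).1 = ∑ k, c k • (a k).1 := by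
    have := map_sum (alg R).val (fun k => c k • a k) Finset.univ
    simpa using this
  rw [h1, Finset.sum_apply]
  rfl

theorem step {F Γ ι ν : Type*} [Field F] [Group Γ] [Fintype ι] [DecidableEq ι] [Fintype ν]
    [DecidableEq ν] (R : Γ →* Matrix ι ι F) (e : ν → ι) (W : Γ →* Matrix ν ν F)
    (hW : ∀ i j h, (gen R (e i) (e j)).1 h = W h i j)
    (D₁ D₂ : Derivation F (alg R) (alg R)) (X X' : Matrix ν ν F)
    (h1 : ∀ i j h, (D₁ (gen R (e i) (e j))).1 h = (W h * X) i j)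
    (h2 : ∀ i j h, (D₂ (gen R (e i) (e j))).1 h = (W h * X') i j) (i j : ν) (h : Γ) :
    (D₁ (D₂ (gen R (e i) (e j)))).1 h = (W h * (X * X')) i j := by
  have h3 : D₂ (gen R (e i) (e j)) = ∑ k, X' k j • gen R (e i) (e k) := by
    apply Subtype.ext
    funext g
    rw [h2, sum_val, Matrix.mul_apply]
    refine Finset.sum_congr rfl fun k _ => ?_
    rw [hW, mul_comm]
  rw [h3, map_sum]
  have h4 : ∑ k, D₁ (X' k j • gen R (e i) (e k)) = ∑ k, X' k j • D₁ (gen R (e i) (e k)) :=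
    Finset.sum_congr rfl fun k _ => by rw [Derivation.map_smul]
  rw [h4, sum_val, ← Matrix.mul_assoc, Matrix.mul_apply]
  refine Finset.sum_congr rfl fun k _ => ?_
  rw [h1, mul_comm]

theorem sub_val {F Γ ι : Type*} [Field F] [Group Γ] [Fintype ι] [DecidableEq ι]
    (R : Γ →* Matrix ι ι F) (a b : alg R) (h : Γ) : (a - b).1 h = a.1 h - b.1 h := rfl

theorem add_val {F Γ ι : Type*} [Field F] [Group Γ] [Fintype ι] [DecidableEq ι]
    (R : Γ →* Matrix ι ι F) (a b : alg R) (h : Γ) : (a + b).1 h = a.1 h + b.1 h := rfl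

theorem smul_val {F Γ ι : Type*} [Field F] [Group Γ] [Fintype ι] [DecidableEq ι]
    (R : Γ →* Matrix ι ι F) (c : F) (a : alg R) (h : Γ) : (c • a).1 h = c * a.1 h := rfl

theorem LIE : LIE_stmt := by
  intro F Γ m κ _ _ _ _ _ _ V ρ
  refine ⟨{ carrier := DL V ρ, add_mem' := ?_, zero_mem' := ?_, smul_mem' := ?_},
    fun p => Iff.rfl, ?_⟩
  · rintro p p' ⟨D, hD1, hD2⟩ ⟨D', hD1', hD2'⟩
    refine ⟨D + D', fun i j h => ?_, fun i j h => ?_⟩
    · rw [Derivation.add_apply, add_val, hD1, hD1', Prod.fst_add, Matrix.mul_add]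
      rfl
    · rw [Derivation.add_apply, add_val, hD2, hD2', Prod.snd_add, Matrix.mul_add]
      rfl
  · refine ⟨0, fun i j h => ?_, fun i j h => ?_⟩
    · rw [Prod.fst_zero, Matrix.mul_zero]
      rfl
    · rw [Prod.snd_zero, Matrix.mul_zero]
      rfl
  · rintro c p ⟨D, hD1, hD2⟩
    refine ⟨c • D, fun i j h => ?_, fun i j h => ?_⟩
    · rw [Derivation.smul_apply, smul_val, hD1, Prod.smul_fst, Matrix.mul_smul]
      rfl
    · rw [Derivation.smul_apply, smul_val, hD2, Prod.smul_snd, Matrix.mul_smul]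
      rfl
  · rintro p ⟨D, hD1, hD2⟩ p' ⟨D', hD1', hD2'⟩
    refine ⟨⁅D, D'⁆, fun i j h => ?_, fun i j h => ?_⟩
    · have hW : ∀ i j h, (gen (ds V ρ) (Sum.inl i) (Sum.inl j)).1 h = V h i j := fun _ _ _ => rfl
      rw [Derivation.commutator_apply, sub_val,
        step (ds V ρ) Sum.inl V hW D D' p.1 p'.1 hD1 hD1',
        step (ds V ρ) Sum.inl V hW D' D p'.1 p.1 hD1' hD1]
      rw [Prod.fst_sub, Prod.fst_mul, Prod.fst_mul, Matrix.mul_sub]
      rfl
    · have hW : ∀ i j h, (gen (ds V ρ) (Sum.inr i) (Sum.inr j)).1 h = ρ h i j := fun _ _ _ => rfl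
      rw [Derivation.commutator_apply, sub_val,
        step (ds V ρ) Sum.inr ρ hW D D' p.2 p'.2 hD2 hD2',
        step (ds V ρ) Sum.inr ρ hW D' D p'.2 p.2 hD2' hD2]
      rw [Prod.snd_sub, Prod.snd_mul, Prod.snd_mul, Matrix.mul_sub]
      rfl

end Pool.Agent.RG.LIE
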