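import Pool.Agent.helper93.RG.Spec

/-! # rg:DIR (helper49): a good direction -/

set_option autoImplicit false

namespace Pool.Agent.RG

open Finset Polynomial

theorem DIR_zpow (x : ℂ) (hx : x ≠ 0) (k : ℤ) (m : ℕ) (h : 0 ≤ k + m) :
    x ^ (k + m).toNat = x ^ k * x ^ m := by
  have h1 : x ^ (k + m).toNat = x ^ ((k + m).toNat : ℤ) := (zpow_natCast x _).symm
  rw [h1, Int.toNat_of_nonneg h, zpow_add₀ hx, zpow_natCast]

theorem DIR_x0 (f : (ℤ × ℤ) →₀ ℤ) (v₀ : ℤ × ℤ) (hv₀ : v₀ ∈ f.support) :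
    ∃ x : ℕ, 2 ≤ x ∧
      ∑ v ∈ f.support.filter (fun v => v.2 = v₀.2), (f v : ℂ) * (x : ℂ) ^ v.1 ≠ 0 := by
  classical
  obtain ⟨m, hm⟩ : ∃ m : ℕ, ∀ v ∈ f.support, |v.1| ≤ (m : ℤ) := by
    refine ⟨∑ v ∈ f.support, v.1.natAbs, fun v hv => ?_⟩
    have h := Finset.single_le_sum (f := fun v : ℤ × ℤ => v.1.natAbs) (fun _ _ => Nat.zero_le _) hv
    rw [Int.abs_eq_natAbs]
    exact_mod_cast h
  set Q : ℂ[X] := ∑ v ∈ f.support.filter (fun v => v.2 = v₀.2), C (f v : ℂ) * X ^ (v.1 + m).toNat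
    with hQdef
  have hQ : Q ≠ 0 := by
    intro h
    have h1 : Q.coeff (v₀.1 + m).toNat = (f v₀ : ℂ) := by
      rw [hQdef, finsetSum_coeff]
      rw [Finset.sum_eq_single v₀]
      · rw [coeff_C_mul, coeff_X_pow, if_pos rfl, mul_one]
      · intro v hv hne
        rw [coeff_C_mul, coeff_X_pow, if_neg, mul_zero]
        intro heq
        apply hne
        obtain ⟨hv1, hv2⟩ := Finset.mem_filter.1 hv
        have a1 := abs_le.1 (hm v hv1)
        have a2 := abs_le.1 (hm v₀ hv₀)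
        refine Prod.ext ?_ hv2
        omega
      · intro h'
        exact absurd (Finset.mem_filter.2 (⟨hv₀, rfl⟩ : v₀ ∈ f.support ∧ v₀.2 = v₀.2)) h'
    rw [h, coeff_zero] at h1
    have h2 : f v₀ ≠ 0 := Finsupp.mem_support_iff.1 hv₀
    exact h2 (by exact_mod_cast h1.symm)
  by_contra hcon
  push Not at hcon
  apply hQ
  refine Polynomial.eq_zero_of_infinite_isRoot Q ?_
  refine Set.infinite_of_injective_forall_mem (f := fun i : ℕ => ((i + 2 : ℕ) : ℂ)) ?_ ?_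
  · intro i j hij
    have : (i + 2 : ℕ) = (j + 2 : ℕ) := Nat.cast_injective hij
    omega
  · intro i
    show Q.IsRoot ((i + 2 : ℕ) : ℂ)
    have hx : ((i + 2 : ℕ) : ℂ) ≠ 0 := Nat.cast_ne_zero.2 (by omega)
    have h0 := hcon (i + 2) (by omega)
    rw [Polynomial.IsRoot.def, hQdef, eval_finsetSum]
    have : ∀ v ∈ f.support.filter (fun v => v.2 = v₀.2),
        eval ((i + 2 : ℕ) : ℂ) (C (f v : ℂ) * X ^ (v.1 + m).toNat) =
          ((f v : ℂ) * ((i + 2 : ℕ) : ℂ) ^ v.1) * ((i + 2 : ℕ) : ℂ) ^ m := by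
      intro v hv
      have a1 := abs_le.1 (hm v (Finset.mem_filter.1 hv).1)
      rw [eval_mul, eval_C, eval_pow, eval_X, DIR_zpow _ hx _ _ (by omega), mul_assoc]
    rw [Finset.sum_congr rfl this, ← Finset.sum_mul, h0, zero_mul]

/-- the polynomial of the proof -/
noncomputable def DIR_P (f : (ℤ × ℤ) →₀ ℤ) (n x : ℕ) : ℂ[X] :=
  ∑ v ∈ f.support, C ((f v : ℂ) * (x : ℂ) ^ v.1) * X ^ (v.2 + n).toNat

theorem DIR_P_ne (f : (ℤ × ℤ) →₀ ℤ) (n x : ℕ) (v₀ : ℤ × ℤ) (hv₀ : v₀ ∈ f.support)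
    (hn : ∀ v ∈ f.support, |v.2| ≤ (n : ℤ))
    (hx : ∑ v ∈ f.support.filter (fun v => v.2 = v₀.2), (f v : ℂ) * (x : ℂ) ^ v.1 ≠ 0) :
    DIR_P f n x ≠ 0 := by
  intro h
  apply hx
  have h1 : (DIR_P f n x).coeff (v₀.2 + n).toNat = 0 := by rw [h, coeff_zero]
  rw [DIR_P, finsetSum_coeff] at h1
  rw [Finset.sum_filter]
  refine Eq.trans (Finset.sum_congr rfl (fun v hv => ?_)) h1
  rw [coeff_C_mul, coeff_X_pow]
  have a1 := abs_le.1 (hn v hv)
  have a2 := abs_le.1 (hn v₀ hv₀)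
  by_cases hc : v.2 = v₀.2
  · rw [if_pos hc, if_pos (by rw [hc]), mul_one]
  · rw [if_neg hc, if_neg (by omega), mul_zero]

theorem DIR_P_deg (f : (ℤ × ℤ) →₀ ℤ) (n x : ℕ) (hn : ∀ v ∈ f.support, |v.2| ≤ (n : ℤ)) :
    (DIR_P f n x).natDegree ≤ 2 * n := by
  refine Polynomial.natDegree_sum_le_of_forall_le _ _ (fun v hv => ?_)
  refine le_trans (natDegree_C_mul_X_pow_le _ _) ?_
  have a1 := abs_le.1 (hn v hv)
  omega

theorem DIR_root (f : (ℤ × ℤ) →₀ ℤ) (n x a b : ℕ) (hx : 2 ≤ x) (hab : Nat.Coprime a b) (ha : 0 < a)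
    (hn : ∀ v ∈ f.support, |v.2| ≤ (n : ℤ)) (hp : push a b f = 0) (Y : ℂ)
    (hY : Y ^ a = (x : ℂ) ^ b) : (DIR_P f n x).IsRoot Y := by
  have hx0 : (x : ℂ) ≠ 0 := Nat.cast_ne_zero.2 (by omega)
  have hY0 : Y ≠ 0 := by
    intro h
    rw [h, zero_pow ha.ne'] at hY
    exact pow_ne_zero b hx0 hY.symm
  -- Bezout
  set u : ℤ := Nat.gcdA a b with hu
  set w : ℤ := Nat.gcdB a b with hw
  have hbez : (a : ℤ) * u + (b : ℤ) * w = 1 := by
    have h := Nat.gcd_eq_gcd_ab a b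
    rw [Nat.Coprime.gcd_eq_one hab] at h
    rw [hu, hw, ← h]
    simp
  have hYz : Y ^ (a : ℤ) = (x : ℂ) ^ (b : ℤ) := by
    rw [zpow_natCast, zpow_natCast, hY]
  set t : ℂ := (x : ℂ) ^ u * Y ^ w with ht
  have ht0 : t ≠ 0 := mul_ne_zero (zpow_ne_zero _ hx0) (zpow_ne_zero _ hY0)
  have hta : t ^ (a : ℤ) = (x : ℂ) := by
    rw [ht, mul_zpow, ← zpow_mul, ← zpow_mul, mul_comm w (a : ℤ), zpow_mul Y, hYz, ← zpow_mul,
      ← zpow_add₀ hx0, mul_comm u (a : ℤ), hbez, zpow_one]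
  have htb : t ^ (b : ℤ) = Y := by
    rw [ht, mul_zpow, ← zpow_mul, ← zpow_mul, mul_comm u (b : ℤ), zpow_mul (x : ℂ), ← hYz,
      ← zpow_mul, ← zpow_add₀ hY0, mul_comm w (b : ℤ), hbez, zpow_one]
  have hsum : f.sum (fun v c => (c : ℂ) * t ^ ((a : ℤ) * v.1 + (b : ℤ) * v.2)) = 0 := by
    have h1 := Finsupp.sum_mapDomain_index (f := fun v : ℤ × ℤ => (a : ℤ) * v.1 + (b : ℤ) * v.2)
      (s := f) (h := fun (j : ℤ) (c : ℤ) => (c : ℂ) * t ^ j) (by intro j; simp)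
      (by intro j c c'; push_cast; ring)
    have h2 : f.mapDomain (fun v : ℤ × ℤ => (a : ℤ) * v.1 + (b : ℤ) * v.2) = 0 := hp
    rw [h2, Finsupp.sum_zero_index] at h1
    exact h1.symm
  rw [Polynomial.IsRoot.def, DIR_P, eval_finsetSum]
  have h3 : ∀ v ∈ f.support, eval Y (C ((f v : ℂ) * (x : ℂ) ^ v.1) * X ^ (v.2 + n).toNat) =
      ((f v : ℂ) * t ^ ((a : ℤ) * v.1 + (b : ℤ) * v.2)) * Y ^ n := by
    intro v hv
    have a1 := abs_le.1 (hn v hv)
    rw [eval_mul, eval_C, eval_pow, eval_X, DIR_zpow _ hY0 _ _ (by omega), zpow_add₀ ht0,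
      zpow_mul, zpow_mul, hta, htb]
    ring
  rw [Finset.sum_congr rfl h3, ← Finset.sum_mul]
  have h4 : ∑ v ∈ f.support, (f v : ℂ) * t ^ ((a : ℤ) * v.1 + (b : ℤ) * v.2) = 0 := hsum
  rw [h4, zero_mul]

theorem DIR_card (x a b : ℕ) (hx : 2 ≤ x) (ha : 0 < a) :
    (nthRoots a ((x : ℂ) ^ b)).toFinset.card = a := by
  have hζ := Complex.isPrimitiveRoot_exp a ha.ne'
  have h0 : (x : ℂ) ^ b ≠ 0 := pow_ne_zero _ (Nat.cast_ne_zero.2 (by omega))
  rw [Multiset.toFinset_card_of_nodup (hζ.nthRoots_nodup h0), hζ.card_nthRoots, if_pos]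
  exact IsAlgClosed.exists_pow_nat_eq _ ha

theorem DIR_mem (x a b : ℕ) (ha : 0 < a) (Y : ℂ) (hY : Y ∈ (nthRoots a ((x : ℂ) ^ b)).toFinset) :
    Y ^ a = (x : ℂ) ^ b := by
  rw [Multiset.mem_toFinset, mem_nthRoots ha] at hY
  exact hY

theorem DIR_inj (x : ℕ) (hx : 2 ≤ x) (i j : ℕ) (h : (x : ℂ) ^ i = (x : ℂ) ^ j) : i = j := by
  have h1 : x ^ i = x ^ j := by exact_mod_cast h
  exact Nat.pow_right_injective hx h1

theorem DIR : DIR_stmt := by
  classical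
  intro n U f hf hn hU
  by_contra hcon
  push Not at hcon
  obtain ⟨v₀, hv₀⟩ := Finsupp.support_nonempty_iff.2 hf
  obtain ⟨x, hx, hx0⟩ := DIR_x0 f v₀ hv₀
  have hP := DIR_P_ne f n x v₀ hv₀ hn hx0
  have hdeg := DIR_P_deg f n x hn
  set T : Finset ℂ := ((range (U + 1)).filter Nat.Prime).biUnion
    (fun a => (Ico 1 a).biUnion (fun b => (nthRoots a ((x : ℂ) ^ b)).toFinset)) with hT
  have hcard : T.card = ∑ a ∈ (range (U + 1)).filter Nat.Prime, a * (a - 1) := by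
    rw [hT, Finset.card_biUnion]
    · refine Finset.sum_congr rfl (fun a ha => ?_)
      have hap : a.Prime := (Finset.mem_filter.1 ha).2
      rw [Finset.card_biUnion]
      · rw [Finset.sum_congr rfl (fun b _ => DIR_card x a b hx hap.pos), Finset.sum_const,
          Nat.card_Ico, smul_eq_mul, mul_comm]
      · intro b _ b' _ hbb
        rw [Function.onFun, Finset.disjoint_left]
        intro Y h1 h2
        have e1 := DIR_mem x a b hap.pos Y h1
        have e2 := DIR_mem x a b' hap.pos Y h2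
        exact hbb (DIR_inj x hx b b' (by rw [← e1, ← e2]))
    · intro a ha a' ha' haa
      rw [Function.onFun, Finset.disjoint_left]
      intro Y h1 h2
      obtain ⟨b, hb, h1'⟩ := Finset.mem_biUnion.1 h1
      obtain ⟨b', hb', h2'⟩ := Finset.mem_biUnion.1 h2
      have hap : a.Prime := (Finset.mem_filter.1 ha).2
      have hap' : a'.Prime := (Finset.mem_filter.1 ha').2
      have e1 := DIR_mem x a b hap.pos Y h1'
      have e2 := DIR_mem x a' b' hap'.pos Y h2'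
      have e3 : (x : ℂ) ^ (b * a') = (x : ℂ) ^ (b' * a) := by
        rw [pow_mul, pow_mul, ← e1, ← e2, ← pow_mul, ← pow_mul, mul_comm a a']
      have e4 := DIR_inj x hx _ _ e3
      have e5 : a ∣ b * a' := ⟨b', by rw [e4, mul_comm]⟩
      rcases hap.dvd_mul.1 e5 with h | h
      · have hb1 := Finset.mem_Ico.1 hb
        have := Nat.le_of_dvd (by omega) h
        omega
      · exact haa ((Nat.prime_dvd_prime_iff_eq hap hap').1 h)
  have hsub : T ⊆ (DIR_P f n x).roots.toFinset := by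
    intro Y hY
    rw [Multiset.mem_toFinset, mem_roots hP]
    obtain ⟨a, ha, h1⟩ := Finset.mem_biUnion.1 hY
    obtain ⟨b, hb, h2⟩ := Finset.mem_biUnion.1 h1
    obtain ⟨ha1, hap⟩ := Finset.mem_filter.1 ha
    obtain ⟨hb1, hb2⟩ := Finset.mem_Ico.1 hb
    refine DIR_root f n x a b hx ?_ hap.pos hn ?_ Y (DIR_mem x a b hap.pos Y h2)
    · rw [Nat.Prime.coprime_iff_not_dvd hap]
      intro h
      have := Nat.le_of_dvd (by omega) h
      omega
    · exact hcon a b hap (by have := Finset.mem_range.1 ha1; omega) hb1 hb2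
  have h1 := Finset.card_le_card hsub
  have h2 : (DIR_P f n x).roots.toFinset.card ≤ 2 * n :=
    le_trans (Multiset.toFinset_card_le _) (le_trans (card_roots' _) hdeg)
  omega

end Pool.Agent.RG
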